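import Pool.Agent.H96.OT.Main

/-!
MP_91df8f_pr: every weak limit point of the empirical optimal plans for the Euclidean cost has
relative entropy less than `log 2` with respect to the plan with independent horizontal
coordinates; in particular it is not induced by a map.
-/

set_option autoImplicit false

open MeasureTheory ProbabilityTheory Filter InformationTheory
open scoped ENNReal Topology
open Pool.Agent.H96.OT

namespace Pool.Agent.Results.MP_91df8f_pr.EntropyOfLimits

theorem graph_null {f : Pl → Pl} (hf : Measurable f) :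
    indepPlan {p : Pl × Pl | p.2 = f p.1} = 0 := by
  have hA : MeasurableSet {p : Pl × Pl | p.2 = f p.1} :=
    measurableSet_eq_fun measurable_snd (hf.comp measurable_fst)
  have hSm : Measurable (fun t : ℝ × ℝ × ℝ => (((t.1, t.2.2), (t.2.1, t.2.2)) : Pl × Pl)) := by
    fun_prop
  have h1 : indepPlan {p : Pl × Pl | p.2 = f p.1}
      ≤ box3 {t : ℝ × ℝ × ℝ | t.2.1 = (f (t.1, t.2.2)).1} := by
    unfold indepPlan
    rw [Measure.map_apply hSm hA, ← box3_eq]
    apply measure_mono
    intro t ht
    exact congrArg Prod.fst (show (t.2.1, t.2.2) = f (t.1, t.2.2) from ht)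
  have h2 : box3 {t : ℝ × ℝ × ℝ | t.2.1 = (f (t.1, t.2.2)).1} = 0 := by
    have hms : MeasurableSet {t : ℝ × ℝ × ℝ | t.2.1 = (f (t.1, t.2.2)).1} :=
      measurableSet_eq_fun (by fun_prop)
        (measurable_fst.comp (hf.comp (by fun_prop)))
    unfold box3
    rw [Measure.prod_apply hms]
    have hz : ∀ a : ℝ, (lebC.prod lebA) (Prod.mk a ⁻¹' {t : ℝ × ℝ × ℝ |
        t.2.1 = (f (t.1, t.2.2)).1}) = 0 := by
      intro a
      have hms2 : MeasurableSet (Prod.mk a ⁻¹' {t : ℝ × ℝ × ℝ | t.2.1 = (f (t.1, t.2.2)).1}) :=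
        measurable_prodMk_left hms
      rw [Measure.prod_apply_symm hms2]
      have hz2 : ∀ y : ℝ, lebC ((fun c => (c, y)) ⁻¹' (Prod.mk a ⁻¹' {t : ℝ × ℝ × ℝ |
          t.2.1 = (f (t.1, t.2.2)).1})) = 0 := by
        intro y
        have e : (fun c : ℝ => (c, y)) ⁻¹' (Prod.mk a ⁻¹' {t : ℝ × ℝ × ℝ |
          t.2.1 = (f (t.1, t.2.2)).1}) = {(f (a, y)).1} := by
          ext c
          simp
        rw [e]
        unfold lebC
        exact measure_singleton _
      simp only [hz2, lintegral_zero]
    simp only [hz, lintegral_zero]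
  exact le_antisymm (h1.trans h2.le) zero_le

/-- Let `X_i` be i.i.d. uniform on `[0,1]²` and `Y_i` i.i.d. uniform on `[2,3] × [0,1]`. Almost
surely, for every sequence of optimal plans `π_n` between the empirical measures and every weak
limit point `ρ` of `(π_n)`: the relative entropy of `ρ` with respect to the coupling with equal
vertical and independent horizontal coordinates is at most `∫ log (y₁ - x₁) dρ < log 2`; in
particular `ρ` is not induced by a map. -/
theorem result {Ω : Type} [MeasurableSpace Ω] (P : Measure Ω) [IsProbabilityMeasure P]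
    (X Y : ℕ → Ω → Pl) (h : IsSample P X Y) :
    ∀ᵐ ω ∂P, ∀ π : ℕ → ProbabilityMeasure (Pl × Pl),
      (∀ n : ℕ, 1 ≤ n →
        IsOptimalPlan (emp n (fun i => X i ω)) (emp n (fun i => Y i ω)) (π n)) →
      ∀ ρ : ProbabilityMeasure (Pl × Pl), MapClusterPt ρ atTop π →
        klDiv (ρ : Measure (Pl × Pl)) indepPlan
          ≤ ENNReal.ofReal (∫ p, Real.log (p.2.1 - p.1.1) ∂(ρ : Measure (Pl × Pl))) ∧
        ∫ p, Real.log (p.2.1 - p.1.1) ∂(ρ : Measure (Pl × Pl)) < Real.log 2 ∧
        ∀ f : Pl → Pl, Measurable f →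
          (ρ : Measure (Pl × Pl)) ≠ (unif 0).map (fun x => (x, f x)) := by
  filter_upwards [ae_good h] with ω hg π hπ ρ hρ
  have hprob : IsProbabilityMeasure ((ρ : Measure (Pl × Pl)).map TK) :=
    Measure.isProbabilityMeasure_map continuous_TK.measurable.aemeasurable
  have hint := integral_lc hg hπ hρ
  refine ⟨?_, ?_, ?_⟩
  · have h1 : klDiv (((ρ : Measure (Pl × Pl)).map TK).map SK) (nuK.map SK)
        ≤ klDiv ((ρ : Measure (Pl × Pl)).map TK) nuK :=
      klDiv_map_le _ _ continuous_SK.measurable
    rw [map_SK_TK hg hπ hρ, nuK_map] at h1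
    rw [← hint]
    exact h1.trans (dv_klDiv (cluster_dv hg hπ hρ))
  · rw [← hint]
    exact integral_lc_lt hg hπ hρ
  · intro f hf heq
    have hA : MeasurableSet {p : Pl × Pl | p.2 = f p.1} :=
      measurableSet_eq_fun measurable_snd (hf.comp measurable_fst)
    have h1 : (ρ : Measure (Pl × Pl)) {p : Pl × Pl | p.2 = f p.1}ᶜ = 0 := by
      have hm : Measurable (fun x : Pl => (x, f x)) := measurable_id.prodMk hf
      rw [heq, Measure.map_apply hm hA.compl]
      have : (fun x => (x, f x)) ⁻¹' {p : Pl × Pl | p.2 = f p.1}ᶜ = ∅ := by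
        ext x
        simp
      rw [this, measure_empty]
    have h2 := cluster_carrier hg hπ hρ hA h1
    rw [Measure.real, graph_null hf, ENNReal.toReal_zero] at h2
    exact absurd h2 (not_le.mpr (Real.exp_pos _))

end Pool.Agent.Results.MP_91df8f_pr.EntropyOfLimits
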