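import Pool.Agent.H27.OTC.FinalPlan
import Pool.Agent.H27.OTC.DensJ

/-!
MP_91df8f_pr: the optimal plans between the empirical measures (Euclidean cost) converge in
probability to a deterministic plan `limPlan γ`, where `γ` is the limit law of the horizontal
coordinates in the local (parabolic) assignment problem.  The law `γ` has a density, the limit of
the densities `finDens n` of the finite problems; divided by `b - a` it is nondecreasing in `a` and
nonincreasing in `b`; and `γ` is close to the uniform law on the square.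

Proof of the last part: if the assignment with the pair `(a, u) → (b, v)` is optimal for the cost
`(v - u)² / (b - a)`, then it stays optimal when `(a, u)` moves along the segment towards `(b, v)`.
-/

set_option autoImplicit false

open MeasureTheory ProbabilityTheory Filter
open scoped ENNReal Topology BoundedContinuousFunction
open Pool.Agent.H96.OT Pool.Agent.H27.OTC

namespace Pool.Agent.Results.MP_91df8f_pr.LimitPlanDensity

/-- There is a probability measure `γ` on `[0,1] × [2,3]` with uniform marginals such that: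

* for all samples, the optimal plans between the empirical measures converge in probability
  (for the topology of weak convergence) to `limPlan γ`, the law of `((a, t), (b, t))` where
  `(a, b)` has law `γ` and `t` is uniform in `[0,1]`, independent of `(a, b)`; all optimal plans
  converge, so the choice of `π_n` does not matter;
* `γ` is the limit law of the horizontal coordinates in the local problem: for `n` uniform points
  `(a_i, u_i)` of `[0,1] × (0,n]` and `n` uniform points `(b_i, v_i)` of `[2,3] × (0,n]`, the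
  averages of `f (a_i, b_(σ i))` over the optimal assignments `σ` for the cost
  `(v - u)² / (b - a)` converge in probability to `∫ f dγ`;
* `γ` has a density `p` on `[0,1] × [2,3]`, and `p (a, b)` is the limit of `finDens n a b` for
  almost all `(a, b)`;
* `p (a, b) / (b - a)` is nondecreasing in `a` and nonincreasing in `b`, and
  `p (3 - b, 3 - a) = p (a, b)`;
* `γ ([0,a] × [2,b])` differs from `a (b - 2)` by at most `4 / 81`. -/
theorem result : ∃ (γ : Measure (ℝ × ℝ)) (_ : IsProbabilityMeasure γ) (p : ℝ × ℝ → ℝ≥0∞),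
    γ.map Prod.fst = volume.restrict (Set.Icc (0 : ℝ) 1) ∧
    γ.map Prod.snd = volume.restrict (Set.Icc (2 : ℝ) 3) ∧
    (∀ {Ω : Type} [MeasurableSpace Ω] (P : Measure Ω) [IsProbabilityMeasure P]
      (X Y : ℕ → Ω → Pl), IsSample P X Y → ∀ U ∈ 𝓝 (limPM γ),
        Tendsto (fun n : ℕ => P {ω | ∃ π : ProbabilityMeasure (Pl × Pl),
          IsOptimalPlan (emp n (fun i => X i ω)) (emp n (fun i => Y i ω)) π ∧ π ∉ U})
            atTop (𝓝 0)) ∧
    (∀ (f : (ℝ × ℝ) →ᵇ ℝ) (ε : ℝ), 0 < ε → Tendsto (fun n : ℕ => smpLaw n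
      {p | ∃ σ : Equiv.Perm (Fin n), IsOptM par p.1 (fun i => p.2 (σ i)) ∧
        ε < |(∑ i, f ((p.1 i).1, (p.2 (σ i)).1)) / n - ∫ z, f z ∂γ|}) atTop (𝓝 0)) ∧
    γ = (volume.restrict (Set.Icc (0 : ℝ) 1 ×ˢ Set.Icc (2 : ℝ) 3)).withDensity p ∧
    (∀ᵐ z ∂(volume.restrict (Set.Icc (0 : ℝ) 1 ×ˢ Set.Icc (2 : ℝ) 3)),
      Tendsto (fun n : ℕ => finDens n z.1 z.2) atTop (𝓝 (p z))) ∧
    (∀ a a' b b' : ℝ, 0 ≤ a → a ≤ a' → a' ≤ 1 → 2 ≤ b' → b' ≤ b → b ≤ 3 →
      ENNReal.ofReal (b' - a') * p (a, b) ≤ ENNReal.ofReal (b - a) * p (a', b')) ∧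
    (∀ a b : ℝ, p (3 - b, 3 - a) = p (a, b)) ∧
    (∀ a b : ℝ, 0 ≤ a → a ≤ 1 → 2 ≤ b → b ≤ 3 →
      |γ.real (Set.Icc 0 a ×ˢ Set.Icc 2 b) - a * (b - 2)| ≤ 4 / 81) := by
  obtain ⟨γ, hprob, hsupp, hlim⟩ := exists_gamma
  have hm := gamma_marginals hlim
  have hw := gam_tendsto hlim
  refine ⟨γ, hprob, limDens, hm.1, hm.2, ?_, ?_, ?_, ?_, ?_, limDens_symm, ?_⟩
  · intro Ω _ P _ X Y h U hU
    apply conv_nhds (P := P) (ν := limPM γ)
      (A := fun n ω => {π : ProbabilityMeasure (Pl × Pl) |
        IsOptimalPlan (emp n (fun i => X i ω)) (emp n (fun i => Y i ω)) π}) _ hU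
    intro f ε hε
    exact conv_plan_test h f (fun ε' hε' => conv_test goodCost_euc hsupp hlim f hε') hε
  · intro f ε hε
    have h1 := hlim f f.continuous ⟨‖f‖, fun z => f.norm_coe_le_norm z⟩ (fun _ => par)
      goodCost_par (fun _ => 1) uniformContinuous_const (fun _ => zero_le_one) (fun _ => le_rfl)
      ε hε
    refine h1.congr (fun n => ?_)
    congr 1
    ext p
    simp [avg]
  · rw [← box_eq]
    exact gamma_density hw hm.1 hm.2
  · rw [← box_eq]
    exact (ae_lim_box hw hm.1 hm.2).mono fun z hz => hz.1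
  · intro a a' b b' _ h1 h2 h3 h4 _
    exact limDens_mono h1 h2 h3 h4
  · intro a b h1 h2 h3 h4
    exact gamma_kolm hw hm.1 hm.2 h1 h2 h3 h4

end Pool.Agent.Results.MP_91df8f_pr.LimitPlanDensity
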